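import Pool.Agent.V11257.Cq4

/-!
# In ZF, every compact Hausdorff quasi-metrizable space is metrizable

If `d` is a quasi-metric on a compact Hausdorff space, and `E n` is the union of the squares of the
balls of radius `q n` (where `q n` tends to `0`), then the closures of the sets `E n` meet in the
diagonal, and (by compactness, without any choice) the sets `E n` are a base of a uniformity that
induces the topology. The metric comes from this sequence by the construction of Birkhoff and
Kakutani.
-/

namespace Pool.Agent.Results.MP_dae09c_lc.QuasiMetrizableMetrizable

open FirstOrder FirstOrder.Language
open Pool.Agent.Helper672.Plain (LSet Mem El)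
open Pool.Agent.H310Top (IsTopology IsCompact IsHausdorff)
open Pool.Agent.H635Amen (ZF)
open Pool.Agent.V11257Q

universe u

/-- In every model of ZF, every compact Hausdorff quasi-metrizable space is metrizable. -/
theorem result (M : Type u) [LSet.Structure M] (hM : ZF M) (x t : M) (_ : IsTopology t x)
    (hc : IsCompact t x) (hH : IsHausdorff t x) (hq : IsQuasiMetrizable t x) :
    IsMetrizable t x :=
  metrizable hM.toZermelo hc hH hq

end Pool.Agent.Results.MP_dae09c_lc.QuasiMetrizableMetrizable
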